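import Mathlib
import Pool.Agent.Helper199.CubicLines

/-!
# A cubic form in twelve variables without lines over the `p`-adic numbers
-/

set_option autoImplicit false

namespace Pool.Agent.H321R2.CL

open MvPolynomial (aeval map_aeval)
open Pool.Agent.Helper199.CubicLines

variable {p : ℕ} [hp : Fact p.Prime]

lemma hom_aeval {ι R S : Type} [CommRing R] [CommRing S] (φ : R →+* S) (x : ι → R)
    (N : MvPolynomial ι ℤ) : φ (aeval x N) = aeval (fun i => φ (x i)) N := by
  have h := map_aeval (R := ℤ) x φ N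
  rw [RingHom.ext_int (φ.comp (algebraMap ℤ R)) (algebraMap ℤ S)] at h
  exact h

/-- the nine variable part -/
noncomputable def nine (p : ℕ) {R : Type} [CommRing R] (N : MvPolynomial (Fin 3) ℤ)
    (P : Fin 3 → Fin 3 → R) : R :=
  aeval (P 0) N + (p : R) * aeval (P 1) N + (p : R) ^ 2 * aeval (P 2) N

lemma aeval_dvd {N : MvPolynomial (Fin 3) ℤ} (hN : N.IsHomogeneous 3) (x : Fin 3 → ℤ_[p])
    (hx : ∀ i, (p : ℤ_[p]) ∣ x i) : (p : ℤ_[p]) ^ 3 ∣ aeval x N := by
  choose y hy using hx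
  have h : x = fun i => (p : ℤ_[p]) * y i := funext hy
  rw [h, aeval_mul_const hN]
  exact Dvd.intro _ rfl

lemma nine_dvd1 {N : MvPolynomial (Fin 3) ℤ} (hN : AnisoP p 3 1 N) (P : Fin 3 → Fin 3 → ℤ_[p])
    (h : (p : ℤ_[p]) ∣ nine p N P) : ∀ i, (p : ℤ_[p]) ∣ P 0 i := by
  apply hN.2
  rw [pow_one]
  unfold nine at h
  have h2 : (p : ℤ_[p]) ∣ (p : ℤ_[p]) ^ 2 * aeval (P 2) N :=
    Dvd.dvd.mul_right (dvd_pow_self _ (by norm_num)) _
  have h1 : (p : ℤ_[p]) ∣ (p : ℤ_[p]) * aeval (P 1) N := Dvd.intro _ rfl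
  exact (dvd_add_left h1).1 ((dvd_add_left h2).1 h)

lemma nine_dvd2 {N : MvPolynomial (Fin 3) ℤ} (hN : AnisoP p 3 1 N) (P : Fin 3 → Fin 3 → ℤ_[p])
    (h : (p : ℤ_[p]) ^ 2 ∣ nine p N P) : ∀ i, (p : ℤ_[p]) ∣ P 1 i := by
  have hp0 : (p : ℤ_[p]) ≠ 0 := by exact_mod_cast hp.out.ne_zero
  have h0 := nine_dvd1 hN P (dvd_trans (dvd_pow_self _ (by norm_num)) h)
  have h3 : (p : ℤ_[p]) ^ 2 ∣ aeval (P 0) N :=
    dvd_trans (pow_dvd_pow _ (by norm_num)) (aeval_dvd hN.1 (P 0) h0)
  apply hN.2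
  rw [pow_one]
  unfold nine at h
  have h2 : (p : ℤ_[p]) ^ 2 ∣ (p : ℤ_[p]) ^ 2 * aeval (P 2) N := Dvd.intro _ rfl
  have h4 := (dvd_add_right h3).1 ((dvd_add_left h2).1 h)
  rw [sq] at h4
  exact (mul_dvd_mul_iff_left hp0).1 h4

lemma nine_dvd3 {N : MvPolynomial (Fin 3) ℤ} (hN : AnisoP p 3 1 N) (P : Fin 3 → Fin 3 → ℤ_[p])
    (h : (p : ℤ_[p]) ^ 3 ∣ nine p N P) : ∀ j i, (p : ℤ_[p]) ∣ P j i := by
  have hp0 : (p : ℤ_[p]) ≠ 0 := by exact_mod_cast hp.out.ne_zero
  have h0 := nine_dvd1 hN P (dvd_trans (dvd_pow_self _ (by norm_num)) h)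
  have h1 := nine_dvd2 hN P (dvd_trans (pow_dvd_pow _ (by norm_num)) h)
  have h2 : ∀ i, (p : ℤ_[p]) ∣ P 2 i := by
    apply hN.2
    rw [pow_one]
    unfold nine at h
    have h3 := aeval_dvd hN.1 (P 0) h0
    have h4 : (p : ℤ_[p]) ^ 3 ∣ (p : ℤ_[p]) * aeval (P 1) N :=
      Dvd.dvd.mul_left (aeval_dvd hN.1 (P 1) h1) _
    have h5 := (dvd_add_right (dvd_add h3 h4)).1 h
    have h6 : (p : ℤ_[p]) ^ 2 * (p : ℤ_[p]) ∣ (p : ℤ_[p]) ^ 2 * aeval (P 2) N := by
      have : (p : ℤ_[p]) ^ 2 * (p : ℤ_[p]) = (p : ℤ_[p]) ^ 3 := by ring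
      rw [this]; exact h5
    exact (mul_dvd_mul_iff_left (pow_ne_zero _ hp0)).1 h6
  intro j i
  fin_cases j
  · exact h0 i
  · exact h1 i
  · exact h2 i

lemma nine_coe {N : MvPolynomial (Fin 3) ℤ} (P : Fin 3 → Fin 3 → ℤ_[p]) :
    ((nine p N P : ℤ_[p]) : ℚ_[p]) = nine p N (fun j i => (P j i : ℚ_[p])) := by
  unfold nine
  have h : ∀ x : Fin 3 → ℤ_[p], ((aeval x N : ℤ_[p]) : ℚ_[p]) = aeval (fun i => (x i : ℚ_[p])) N :=
    fun x => hom_aeval (PadicInt.Coe.ringHom (p := p)) x N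
  push_cast
  rw [h, h, h]

lemma nine_mul {R : Type} [CommRing R] {N : MvPolynomial (Fin 3) ℤ} (hN : N.IsHomogeneous 3)
    (r : R) (P : Fin 3 → Fin 3 → R) : nine p N (fun j i => r * P j i) = r ^ 3 * nine p N P := by
  unfold nine
  rw [aeval_mul_const hN, aeval_mul_const hN, aeval_mul_const hN]
  ring

/-- integrality -/
lemma nine_int {N : MvPolynomial (Fin 3) ℤ} (hN : AnisoP p 3 1 N) (P : Fin 3 → Fin 3 → ℚ_[p])
    (h : ‖nine p N P‖ ≤ 1) : ∀ j i, ‖P j i‖ ≤ 1 := by
  by_contra hcon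
  push Not at hcon
  obtain ⟨j1, i1, hji⟩ := hcon
  obtain ⟨q0, _, hq0⟩ := Finset.exists_max_image (Finset.univ : Finset (Fin 3 × Fin 3))
    (fun q => ‖P q.1 q.2‖) ⟨(0, 0), Finset.mem_univ _⟩
  set r := P q0.1 q0.2 with hr
  have hr1 : 1 < ‖r‖ := lt_of_lt_of_le hji (hq0 (j1, i1) (Finset.mem_univ _))
  have hr0 : r ≠ 0 := by
    intro h0
    rw [h0, norm_zero] at hr1
    linarith
  have hrpos : 0 < ‖r‖ := by linarith
  have hle : ∀ j i, ‖r⁻¹ * P j i‖ ≤ 1 := by
    intro j i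
    rw [norm_mul, norm_inv, inv_mul_le_iff₀ hrpos, mul_one]
    exact hq0 (j, i) (Finset.mem_univ _)
  let z : Fin 3 → Fin 3 → ℤ_[p] := fun j i => ⟨r⁻¹ * P j i, hle j i⟩
  let c : ℤ_[p] := ⟨nine p N P, h⟩
  have hinv : ‖r⁻¹‖ < 1 := by
    rw [norm_inv]
    exact inv_lt_one_of_one_lt₀ hr1
  let ρ : ℤ_[p] := ⟨r⁻¹, hinv.le⟩
  have hρ : (p : ℤ_[p]) ∣ ρ := (PadicInt.norm_lt_one_iff_dvd ρ).1 hinv
  have h1 : nine p N z = ρ ^ 3 * c := by
    apply Subtype.ext
    have h2 : ((nine p N z : ℤ_[p]) : ℚ_[p]) = r⁻¹ ^ 3 * nine p N P := by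
      rw [nine_coe]
      exact nine_mul hN.1 r⁻¹ P
    exact h2
  have h3 := nine_dvd3 hN z (by rw [h1]; exact Dvd.dvd.mul_right (pow_dvd_pow_of_dvd hρ 3) _)
    q0.1 q0.2
  have h4 : z q0.1 q0.2 = 1 := by
    apply Subtype.ext
    exact inv_mul_cancel₀ hr0
  rw [h4] at h3
  exact PadicInt.prime_p.not_isUnit (isUnit_of_dvd_one h3)

lemma nine_zero {N : MvPolynomial (Fin 3) ℤ} (hN : AnisoP p 3 1 N) (P : Fin 3 → Fin 3 → ℚ_[p])
    (h : nine p N P = 0) : P = 0 := by
  have hp0 : (p : ℚ_[p]) ≠ 0 := by exact_mod_cast hp.out.ne_zero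
  by_contra hne
  obtain ⟨j, hj⟩ := Function.ne_iff.1 hne
  obtain ⟨i, hi⟩ := Function.ne_iff.1 hj
  have h1 : ∀ r : ℚ_[p], ‖r * P j i‖ ≤ 1 := by
    intro r
    apply nine_int hN (fun j i => r * P j i) _ j i
    rw [nine_mul hN.1, h, mul_zero, norm_zero]
    norm_num
  have hi' : P j i ≠ 0 := hi
  have h2 := h1 ((p : ℚ_[p])⁻¹ * (P j i)⁻¹)
  rw [mul_assoc, inv_mul_cancel₀ hi', mul_one, norm_inv, Padic.norm_p, inv_inv] at h2
  have h3 : (1 : ℝ) < p := by exact_mod_cast hp.out.one_lt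
  linarith

/-- `N` along a line, as a polynomial -/
noncomputable def nP (N : MvPolynomial (Fin 3) ℤ) (U V : Fin 3 → ℤ_[p]) : Polynomial ℤ_[p] :=
  aeval (fun i => Polynomial.C (U i) + Polynomial.X * Polynomial.C (V i)) N

lemma eval_nP (N : MvPolynomial (Fin 3) ℤ) (U V : Fin 3 → ℤ_[p]) (t : ℤ_[p]) :
    (nP N U V).eval t = aeval (fun i => U i + t * V i) N := by
  have h := hom_aeval (Polynomial.evalRingHom t)
    (fun i => Polynomial.C (U i) + Polynomial.X * Polynomial.C (V i)) N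
  have h2 : (fun i => Polynomial.evalRingHom t (Polynomial.C (U i) +
      Polynomial.X * Polynomial.C (V i))) = fun i => U i + t * V i := by
    funext i
    simp only [Polynomial.coe_evalRingHom, Polynomial.eval_add, Polynomial.eval_C,
      Polynomial.eval_mul, Polynomial.eval_X]
  rw [h2] at h
  exact h

lemma map_nP (N : MvPolynomial (Fin 3) ℤ) (U V : Fin 3 → ℤ_[p]) (hV : ∀ i, (p : ℤ_[p]) ∣ V i) :
    ∃ c : ZMod p, (nP N U V).map PadicInt.toZMod = Polynomial.C c := by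
  have key : ∀ z : ℤ_[p], (p : ℤ_[p]) ∣ z → PadicInt.toZMod z = 0 := by
    rintro z ⟨y, rfl⟩
    rw [map_mul, map_natCast, ZMod.natCast_self, zero_mul]
  refine ⟨aeval (fun i => PadicInt.toZMod (U i)) N, ?_⟩
  have h1 := hom_aeval (Polynomial.mapRingHom (PadicInt.toZMod (p := p)))
    (fun i => Polynomial.C (U i) + Polynomial.X * Polynomial.C (V i)) N
  have h2 := hom_aeval (Polynomial.C : ZMod p →+* Polynomial (ZMod p))
    (fun i => PadicInt.toZMod (U i)) N
  rw [h2]
  have h3 : (nP N U V).map PadicInt.toZMod =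
      Polynomial.mapRingHom (PadicInt.toZMod (p := p)) (nP N U V) := rfl
  rw [h3]
  refine h1.trans ?_
  have h4 : (fun i => Polynomial.mapRingHom (PadicInt.toZMod (p := p)) (Polynomial.C (U i) +
      Polynomial.X * Polynomial.C (V i))) = fun i => Polynomial.C (PadicInt.toZMod (U i)) := by
    funext i
    simp [key _ (hV i)]
  rw [h4]

/-- The general contradiction: a polynomial identity whose reduction modulo `p` has a nonzero
coefficient. -/
lemma contra (N : MvPolynomial (Fin 3) ℤ) (U V : Fin 3 → ℤ_[p]) (hV : ∀ i, (p : ℤ_[p]) ∣ V i)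
    (g h : Polynomial ℤ_[p]) (H : ∀ t : ℤ_[p], aeval (fun i => U i + t * V i) N + g.eval t +
      (p : ℤ_[p]) * h.eval t = 0) (j : ℕ) (hj : j ≠ 0) (hg : PadicInt.toZMod (g.coeff j) = 1) :
    False := by
  have h1 : nP N U V + g + Polynomial.C (p : ℤ_[p]) * h = 0 := by
    apply Polynomial.funext
    intro t
    rw [Polynomial.eval_add, Polynomial.eval_add, Polynomial.eval_mul, Polynomial.eval_C, eval_nP,
      H t, Polynomial.eval_zero]
  obtain ⟨c, hc⟩ := map_nP N U V hV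
  have hph : (Polynomial.C (p : ℤ_[p]) * h).map (PadicInt.toZMod (p := p)) = 0 := by
    rw [Polynomial.map_mul, Polynomial.map_C]
    have : PadicInt.toZMod (p : ℤ_[p]) = 0 := by rw [map_natCast, ZMod.natCast_self]
    rw [this, map_zero, zero_mul]
  have h2 : (nP N U V + g + Polynomial.C (p : ℤ_[p]) * h).map (PadicInt.toZMod (p := p)) = 0 := by
    rw [h1, Polynomial.map_zero]
  rw [Polynomial.map_add, Polynomial.map_add, hc, hph, add_zero] at h2
  have h3 := congrArg (fun q => Polynomial.coeff q j) h2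
  simp only [Polynomial.coeff_add, Polynomial.coeff_C, if_neg hj, zero_add,
    Polynomial.coeff_map, hg, Polynomial.coeff_zero] at h3
  exact one_ne_zero h3

/-- values of the twelve variable form -/
noncomputable def val (p : ℕ) {R : Type} [CommRing R] (N : MvPolynomial (Fin 3) ℤ)
    (P : Fin 3 → Fin 3 → R) (y z w : R) : R :=
  nine p N P + y * z ^ 2 + y ^ 2 * w + (p : R) * (z * w ^ 2)

/-- lifting to the `p`-adic integers -/
lemma lift_int {N : MvPolynomial (Fin 3) ℤ} (hN : AnisoP p 3 1 N) (P : Fin 3 → Fin 3 → ℚ_[p])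
    (c : ℤ_[p]) (h : nine p N P = (c : ℚ_[p])) :
    ∃ P' : Fin 3 → Fin 3 → ℤ_[p], (P = fun j i => (P' j i : ℚ_[p])) ∧ nine p N P' = c := by
  have h1 := nine_int hN P (by rw [h]; exact c.2)
  refine ⟨fun j i => ⟨P j i, h1 j i⟩, rfl, ?_⟩
  apply Subtype.ext
  have h2 := nine_coe (p := p) (N := N) (fun j i => (⟨P j i, h1 j i⟩ : ℤ_[p]))
  exact h2.trans h

open Polynomial (X C eval_add eval_mul eval_C eval_X eval_pow coeff_X coeff_C) in
/-- Case 1: `w = a y + b z`. -/
lemma case1 {N : MvPolynomial (Fin 3) ℤ} (hN : AnisoP p 3 1 N) (P Q : Fin 3 → Fin 3 → ℚ_[p])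
    (a b : ℤ_[p]) (H : ∀ s t : ℚ_[p], val p N (fun j i => s * P j i + t * Q j i) s t
      (s * a + t * b) = 0) : False := by
  have hP : nine p N P = ((-a : ℤ_[p]) : ℚ_[p]) := by
    have := H 1 0
    unfold val at this
    simp only [one_mul, zero_mul, add_zero] at this
    push_cast
    linear_combination this
  have hQ : nine p N Q = ((-(p * b ^ 2) : ℤ_[p]) : ℚ_[p]) := by
    have := H 0 1
    unfold val at this
    simp only [one_mul, zero_mul, zero_add] at this
    push_cast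
    linear_combination this
  obtain ⟨P', rfl, hP'⟩ := lift_int hN P _ hP
  obtain ⟨Q', rfl, hQ'⟩ := lift_int hN Q _ hQ
  have hQ0 := nine_dvd1 hN Q' (by rw [hQ']; exact (Dvd.intro _ rfl : (p : ℤ_[p]) ∣ p * b ^ 2).neg_right)
  refine contra N (P' 0) (Q' 0) hQ0 (X ^ 2 + (C a + C b * X))
    (nP N (P' 1) (Q' 1) + C (p : ℤ_[p]) * nP N (P' 2) (Q' 2) + X * (C a + C b * X) ^ 2) ?_ 2
    (by norm_num) ?_
  · intro t
    have h1 := H 1 t
    have h2 : val p N (fun j i => P' j i + t * Q' j i) 1 t (a + t * b) = 0 := by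
      apply Subtype.ext
      unfold val at h1 ⊢
      push_cast
      rw [nine_coe]
      simp only [one_mul] at h1
      push_cast
      linear_combination h1
    simp only [eval_add, eval_mul, eval_C, eval_X, eval_pow, eval_nP]
    unfold val nine at h2
    linear_combination h2
  · simp [coeff_X, coeff_C]

open Polynomial (X C eval_add eval_mul eval_C eval_X eval_pow coeff_X coeff_C) in
/-- Case 2: `z = a y + b w` with `b` divisible by `p`. -/
lemma case2 {N : MvPolynomial (Fin 3) ℤ} (hN : AnisoP p 3 1 N) (P Q : Fin 3 → Fin 3 → ℚ_[p])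
    (a b : ℤ_[p]) (H : ∀ s t : ℚ_[p], val p N (fun j i => s * P j i + t * Q j i) s
      (s * a + t * (p * b)) t = 0) : False := by
  have hP : nine p N P = ((-a ^ 2 : ℤ_[p]) : ℚ_[p]) := by
    have := H 1 0
    unfold val at this
    simp only [one_mul, zero_mul, add_zero] at this
    push_cast
    linear_combination this
  have hQ : nine p N Q = ((-(p ^ 2 * b) : ℤ_[p]) : ℚ_[p]) := by
    have := H 0 1
    unfold val at this
    simp only [one_mul, zero_mul, zero_add] at this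
    push_cast
    linear_combination this
  obtain ⟨P', rfl, hP'⟩ := lift_int hN P _ hP
  obtain ⟨Q', rfl, hQ'⟩ := lift_int hN Q _ hQ
  have hQ0 := nine_dvd1 hN Q' (by
    rw [hQ']; exact ((dvd_pow_self _ (by norm_num : (2 : ℕ) ≠ 0)).mul_right b).neg_right)
  refine contra N (P' 0) (Q' 0) hQ0 (C (a ^ 2) + X)
    (nP N (P' 1) (Q' 1) + C (p : ℤ_[p]) * nP N (P' 2) (Q' 2) +
      (C (2 * a * b) * X + C (p * b ^ 2) * X ^ 2) + (C a + C (p * b) * X) * X ^ 2) ?_ 1
    (by norm_num) ?_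
  · intro t
    have h1 := H 1 t
    have h2 : val p N (fun j i => P' j i + t * Q' j i) 1 (a + t * (p * b)) t = 0 := by
      apply Subtype.ext
      unfold val at h1 ⊢
      push_cast
      rw [nine_coe]
      simp only [one_mul] at h1
      push_cast
      linear_combination h1
    simp only [eval_add, eval_mul, eval_C, eval_X, eval_pow, eval_nP]
    unfold val nine at h2
    linear_combination h2
  · rw [Polynomial.coeff_add, Polynomial.coeff_C, if_neg one_ne_zero, Polynomial.coeff_X_one,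
      zero_add, map_one]

open Polynomial (X C eval_add eval_mul eval_C eval_X eval_pow coeff_X coeff_C) in
/-- Case 3: `y = a z + b w` with `a`, `b` divisible by `p`. -/
lemma case3 {N : MvPolynomial (Fin 3) ℤ} (hN : AnisoP p 3 1 N) (P Q : Fin 3 → Fin 3 → ℚ_[p])
    (a b : ℤ_[p]) (H : ∀ s t : ℚ_[p], val p N (fun j i => s * P j i + t * Q j i)
      (s * (p * a) + t * (p * b)) s t = 0) : False := by
  have hp0 : (p : ℤ_[p]) ≠ 0 := by exact_mod_cast hp.out.ne_zero
  have hP : nine p N P = ((-(p * a) : ℤ_[p]) : ℚ_[p]) := by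
    have := H 1 0
    unfold val at this
    simp only [one_mul, zero_mul, add_zero] at this
    push_cast
    linear_combination this
  have hQ : nine p N Q = ((-(p ^ 2 * b ^ 2) : ℤ_[p]) : ℚ_[p]) := by
    have := H 0 1
    unfold val at this
    simp only [one_mul, zero_mul, zero_add] at this
    push_cast
    linear_combination this
  obtain ⟨P', rfl, hP'⟩ := lift_int hN P _ hP
  obtain ⟨Q', rfl, hQ'⟩ := lift_int hN Q _ hQ
  have hP0 := nine_dvd1 hN P' (by rw [hP']; exact (Dvd.intro _ rfl : (p : ℤ_[p]) ∣ p * a).neg_right)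
  have hQ0 := nine_dvd1 hN Q' (by
    rw [hQ']; exact ((dvd_pow_self _ (by norm_num : (2 : ℕ) ≠ 0)).mul_right _).neg_right)
  have hQ1 := nine_dvd2 hN Q' (by rw [hQ']; exact (Dvd.intro _ rfl : (p : ℤ_[p]) ^ 2 ∣ p ^ 2 * b ^ 2).neg_right)
  choose U hU using hP0
  choose V hV using hQ0
  refine contra N (P' 1) (Q' 1) hQ1 (C a + C b * X + X ^ 2)
    (C (p : ℤ_[p]) * nP N U V + nP N (P' 2) (Q' 2) + (C a + C b * X) ^ 2 * X) ?_ 2
    (by norm_num) ?_
  · intro t
    have h1 := H 1 t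
    have h2 : val p N (fun j i => P' j i + t * Q' j i) (p * a + t * (p * b)) 1 t = 0 := by
      apply Subtype.ext
      unfold val at h1 ⊢
      push_cast
      rw [nine_coe]
      simp only [one_mul] at h1
      push_cast
      linear_combination h1
    simp only [eval_add, eval_mul, eval_C, eval_X, eval_pow, eval_nP]
    unfold val nine at h2
    have h3 : aeval (fun i => P' 0 i + t * Q' 0 i) N =
        (p : ℤ_[p]) ^ 3 * aeval (fun i => U i + t * V i) N := by
      rw [← aeval_mul_const hN.1]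
      congr 2
      funext i
      rw [hU, hV]; ring
    rw [h3] at h2
    apply mul_left_cancel₀ hp0
    linear_combination h2
  · simp [coeff_X, coeff_C]

/-- No line, in terms of two vectors. `P`, `Q` are the nine variable parts, `(y, z, w)` the rest. -/
theorem no_line_pair {N : MvPolynomial (Fin 3) ℤ} (hN : AnisoP p 3 1 N)
    (P Q : Fin 3 → Fin 3 → ℚ_[p]) (y z w y' z' w' : ℚ_[p])
    (H : ∀ s t : ℚ_[p], val p N (fun j i => s * P j i + t * Q j i) (s * y + t * y')
      (s * z + t * z') (s * w + t * w') = 0)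
    (hind : ∀ s t : ℚ_[p], (∀ j i, s * P j i + t * Q j i = 0) → s * y + t * y' = 0 →
      s * z + t * z' = 0 → s * w + t * w' = 0 → s = 0 ∧ t = 0) : False := by
  have hp0 : (p : ℚ_[p]) ≠ 0 := by exact_mod_cast hp.out.ne_zero
  -- only the three coordinates matter
  have hind' : ∀ s t : ℚ_[p], s * y + t * y' = 0 → s * z + t * z' = 0 → s * w + t * w' = 0 →
      s = 0 ∧ t = 0 := by
    intro s t h1 h2 h3
    apply hind s t _ h1 h2 h3
    have h4 := H s t
    rw [h1, h2, h3] at h4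
    unfold val at h4
    have h5 : nine p N (fun j i => s * P j i + t * Q j i) = 0 := by linear_combination h4
    have h6 := nine_zero hN _ h5
    intro j i
    exact congrFun (congrFun h6 j) i
  set α := z * w' - w * z' with hα
  set β := w * y' - y * w' with hβ
  set γ := y * z' - z * y' with hγ
  have hne : ¬ (α = 0 ∧ β = 0 ∧ γ = 0) := by
    rintro ⟨h1, h2, h3⟩
    have hy := hind' y' (-y) (by ring) (by linear_combination (-1) * h3) (by linear_combination h2)
    have hz := hind' z' (-z) (by linear_combination h3) (by ring) (by linear_combination (-1) * h1)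
    have hw := hind' w' (-w) (by linear_combination (-1) * h2) (by linear_combination h1) (by ring)
    have := hind' 1 0 (by rw [neg_eq_zero.1 hy.2]; ring) (by rw [neg_eq_zero.1 hz.2]; ring)
      (by rw [neg_eq_zero.1 hw.2]; ring)
    exact one_ne_zero this.1
  have toInt : ∀ a b : ℚ_[p], b ≠ 0 → ‖a‖ ≤ ‖b‖ → ∃ c : ℤ_[p], (c : ℚ_[p]) = - a / b := by
    intro a b hb h
    refine ⟨⟨- a / b, ?_⟩, rfl⟩
    rw [norm_div, norm_neg, div_le_one (norm_pos_iff.2 hb)]
    exact h
  have toInt' : ∀ a b : ℚ_[p], b ≠ 0 → ‖a‖ < ‖b‖ → ∃ c : ℤ_[p], (p : ℚ_[p]) * c = - a / b := by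
    intro a b hb h
    have h1 : ‖- a / b‖ < 1 := by
      rw [norm_div, norm_neg, div_lt_one (norm_pos_iff.2 hb)]
      exact h
    obtain ⟨c, hc⟩ := (PadicInt.norm_lt_one_iff_dvd (⟨- a / b, h1.le⟩ : ℤ_[p])).1 h1
    refine ⟨c, ?_⟩
    have := congrArg (fun x : ℤ_[p] => (x : ℚ_[p])) hc
    simp only at this
    rw [this]
    push_cast
    rfl
  rcases le_or_gt (max ‖α‖ ‖β‖) ‖γ‖ with h | h
  · have hγ0 : γ ≠ 0 := by
      intro h0
      rw [h0, norm_zero] at h
      have h1 := norm_le_zero_iff.1 ((le_max_left _ _).trans h)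
      have h2 := norm_le_zero_iff.1 ((le_max_right _ _).trans h)
      exact hne ⟨h1, h2, h0⟩
    obtain ⟨a, ha⟩ := toInt α γ hγ0 ((le_max_left _ _).trans h)
    obtain ⟨b, hb⟩ := toInt β γ hγ0 ((le_max_right _ _).trans h)
    refine case1 hN (fun j i => z' / γ * P j i + (-z / γ) * Q j i)
      (fun j i => -y' / γ * P j i + (y / γ) * Q j i) a b ?_
    intro s t
    have h1 := H (s * (z' / γ) + t * (-y' / γ)) (s * (-z / γ) + t * (y / γ))
    convert h1 using 2
    · funext j i; ring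
    · field_simp; rw [hγ]; ring
    · field_simp; rw [hγ]; ring
    · rw [ha, hb]; field_simp; rw [hα, hβ]; ring
  · rcases le_or_gt ‖α‖ ‖β‖ with h' | h'
    · have hm : max ‖α‖ ‖β‖ = ‖β‖ := max_eq_right h'
      rw [hm] at h
      have hβ0 : β ≠ 0 := by
        intro h0
        rw [h0, norm_zero] at h
        exact absurd h (not_lt.2 (norm_nonneg _))
      obtain ⟨a, ha⟩ := toInt α β hβ0 h'
      obtain ⟨b, hb⟩ := toInt' γ β hβ0 h
      refine case2 hN (fun j i => -w' / β * P j i + (w / β) * Q j i)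
        (fun j i => y' / β * P j i + (-y / β) * Q j i) a b ?_
      intro s t
      have h1 := H (s * (-w' / β) + t * (y' / β)) (s * (w / β) + t * (-y / β))
      convert h1 using 2
      · funext j i; ring
      · field_simp; rw [hβ]; ring
      · rw [ha, hb]; field_simp; rw [hα, hγ]; ring
      · field_simp; rw [hβ]; ring
    · have hm : max ‖α‖ ‖β‖ = ‖α‖ := max_eq_left h'.le
      rw [hm] at h
      have hα0 : α ≠ 0 := by
        intro h0
        rw [h0, norm_zero] at h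
        exact absurd h (not_lt.2 (norm_nonneg _))
      obtain ⟨a, ha⟩ := toInt' β α hα0 h'
      obtain ⟨b, hb⟩ := toInt' γ α hα0 h
      refine case3 hN (fun j i => w' / α * P j i + (-w / α) * Q j i)
        (fun j i => -z' / α * P j i + (z / α) * Q j i) a b ?_
      intro s t
      have h1 := H (s * (w' / α) + t * (-z' / α)) (s * (-w / α) + t * (z / α))
      convert h1 using 2
      · funext j i; ring
      · rw [ha, hb]; field_simp; rw [hβ, hγ]; ring
      · field_simp; rw [hα]; ring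
      · field_simp; rw [hα]; ring

end Pool.Agent.H321R2.CL
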