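import Mathlib
import Pool.Agent.H321R2.CL.Twelve

/-!
# The twelve variable form as a polynomial; no lines over `ℚ_p` and over `ℚ`
-/

set_option autoImplicit false

namespace Pool.Agent.H321R2.CL

open MvPolynomial Pool.Agent.Helper199.CubicLines

/-- index of the `i`-th variable of the `j`-th block -/
def blk (j i : Fin 3) : Fin 12 := ⟨3 * j.val + i.val, by omega⟩

/-- the form `N(x) + p N(x') + p² N(x'') + y z² + y² w + p z w²` -/
noncomputable def form (p : ℕ) (N : MvPolynomial (Fin 3) ℤ) : MvPolynomial (Fin 12) ℤ :=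
  rename (blk 0) N + C (p : ℤ) * rename (blk 1) N + C ((p : ℤ) ^ 2) * rename (blk 2) N +
    X 9 * X 10 ^ 2 + X 9 ^ 2 * X 11 + C (p : ℤ) * (X 10 * X 11 ^ 2)

lemma form_homog (p : ℕ) {N : MvPolynomial (Fin 3) ℤ} (hN : N.IsHomogeneous 3) :
    (form p N).IsHomogeneous 3 := by
  have hX : ∀ i : Fin 12, (X i : MvPolynomial (Fin 12) ℤ).IsHomogeneous 1 := fun i =>
    isHomogeneous_X ℤ i
  have hC : ∀ c : ℤ, (C c : MvPolynomial (Fin 12) ℤ).IsHomogeneous 0 := fun c =>
    isHomogeneous_C (Fin 12) c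
  have h0 : ∀ j : Fin 3, (rename (blk j) N).IsHomogeneous 3 := fun j => hN.rename_isHomogeneous
  have h1 : ∀ (c : ℤ) (j : Fin 3), (C c * rename (blk j) N).IsHomogeneous 3 := by
    intro c j
    have h := (hC c).mul (h0 j)
    rwa [Nat.zero_add] at h
  have h2 : (X 9 * X 10 ^ 2 : MvPolynomial (Fin 12) ℤ).IsHomogeneous 3 :=
    (hX 9).mul ((hX 10).pow 2)
  have h3 : (X 9 ^ 2 * X 11 : MvPolynomial (Fin 12) ℤ).IsHomogeneous 3 :=
    ((hX 9).pow 2).mul (hX 11)
  have h4 : (X 10 * X 11 ^ 2 : MvPolynomial (Fin 12) ℤ).IsHomogeneous 3 :=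
    (hX 10).mul ((hX 11).pow 2)
  have h5 : (C (p : ℤ) * (X 10 * X 11 ^ 2) : MvPolynomial (Fin 12) ℤ).IsHomogeneous 3 := by
    have h := (hC (p : ℤ)).mul h4
    rwa [Nat.zero_add] at h
  exact ((((h0 0).add (h1 _ 1)).add (h1 _ 2)).add h2).add h3 |>.add h5

lemma aeval_form (p : ℕ) (N : MvPolynomial (Fin 3) ℤ) {R : Type} [CommRing R] (v : Fin 12 → R) :
    aeval v (form p N) = val p N (fun j i => v (blk j i)) (v 9) (v 10) (v 11) := by
  unfold form val nine
  simp only [map_add, map_mul, map_pow, aeval_X, aeval_C, aeval_rename]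
  have e : ∀ j, v ∘ blk j = fun i => v (blk j i) := fun j => rfl
  rw [e, e, e]
  simp

lemma eval_map_form (p : ℕ) (N : MvPolynomial (Fin 3) ℤ) {k : Type} [Field k] (v : Fin 12 → k) :
    eval v (map (Int.castRingHom k) (form p N)) =
      val p N (fun j i => v (blk j i)) (v 9) (v 10) (v 11) := by
  rw [← aeval_form, eval_map]
  rfl

lemma form_ne_zero (p : ℕ) {N : MvPolynomial (Fin 3) ℤ} (hN : N.IsHomogeneous 3) {k : Type}
    [Field k] : map (Int.castRingHom k) (form p N) ≠ 0 := by
  intro h0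
  have h1 : eval (fun i : Fin 12 => if i = 9 ∨ i = 10 then (1 : k) else 0)
      (map (Int.castRingHom k) (form p N)) = 1 := by
    rw [eval_map_form]
    have h2 : (fun j i => (fun i : Fin 12 => if i = 9 ∨ i = 10 then (1 : k) else 0) (blk j i)) =
        fun (_ : Fin 3) (_ : Fin 3) => (0 : k) * (0 : k) := by
      funext j i
      have hi := i.isLt
      have hj := j.isLt
      have e1 : blk j i ≠ 9 := by
        intro h
        have := congrArg Fin.val h
        simp [blk] at this
        omega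
      have e2 : blk j i ≠ 10 := by
        intro h
        have := congrArg Fin.val h
        simp [blk] at this
        omega
      simp [e1, e2]
    unfold val
    rw [h2]
    have h3 : nine p N (fun (_ : Fin 3) (_ : Fin 3) => (0 : k) * (0 : k)) = 0 := by
      unfold nine
      simp only []
      rw [aeval_mul_const hN (0 : k) (fun _ => 0)]
      ring
    rw [h3]
    have e11 : ¬ ((11 : Fin 12) = 9 ∨ (11 : Fin 12) = 10) := by decide
    simp [e11]
  rw [h0] at h1
  simp at h1

lemma coord_cases (i : Fin 12) : (∃ j l, i = blk j l) ∨ i = 9 ∨ i = 10 ∨ i = 11 := by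
  revert i
  unfold blk
  decide

/-- Two vectors over `ℚ_p` whose span lies on the hypersurface are linearly dependent. -/
theorem no_line_vec {p : ℕ} [hp : Fact p.Prime] {N : MvPolynomial (Fin 3) ℤ}
    (hN : AnisoP p 3 1 N) (u v : Fin 12 → ℚ_[p])
    (H : ∀ s t : ℚ_[p], eval (fun i => s * u i + t * v i)
      (map (Int.castRingHom ℚ_[p]) (form p N)) = 0)
    (hind : ∀ s t : ℚ_[p], (∀ i, s * u i + t * v i = 0) → s = 0 ∧ t = 0) : False := by
  refine no_line_pair hN (fun j i => u (blk j i)) (fun j i => v (blk j i)) (u 9) (u 10) (u 11)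
    (v 9) (v 10) (v 11) ?_ ?_
  · intro s t
    have := H s t
    rw [eval_map_form] at this
    exact this
  · intro s t h1 h2 h3 h4
    apply hind s t
    intro i
    rcases coord_cases i with ⟨j, l, rfl⟩ | rfl | rfl | rfl
    · exact h1 j l
    · exact h2
    · exact h3
    · exact h4

theorem padic (p : ℕ) [Fact p.Prime] :
    ∃ F : MvPolynomial (Fin 12) ℚ_[p], F.IsHomogeneous 3 ∧ F ≠ 0 ∧
      ∀ W : Submodule ℚ_[p] (Fin 12 → ℚ_[p]), Module.finrank ℚ_[p] W = 2 →
        ∃ v ∈ W, eval v F ≠ 0 := by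
  obtain ⟨N, hN⟩ := anisoP_norm p 3 (by norm_num)
  refine ⟨map (Int.castRingHom ℚ_[p]) (form p N), (form_homog p hN.1).map _,
    form_ne_zero p hN.1, ?_⟩
  intro W hW
  by_contra hcon
  push Not at hcon
  have hfd : FiniteDimensional ℚ_[p] W := Module.finite_of_finrank_pos (by omega)
  let b := Module.finBasisOfFinrankEq ℚ_[p] W hW
  refine no_line_vec hN (b 0 : Fin 12 → ℚ_[p]) (b 1 : Fin 12 → ℚ_[p]) ?_ ?_
  · intro s t
    exact hcon _ (s • b 0 + t • b 1).2
  · intro s t h
    have h1 : s • b 0 + t • b 1 = 0 := by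
      apply Subtype.ext
      funext i
      exact h i
    have h2 : LinearIndependent ℚ_[p] ![b 0, b 1] := by
      have : ![b 0, b 1] = b := by
        funext i
        fin_cases i <;> rfl
      rw [this]
      exact b.linearIndependent
    exact LinearIndependent.pair_iff.1 h2 s t h1

theorem rational :
    ∃ F : MvPolynomial (Fin 12) ℚ, F.IsHomogeneous 3 ∧ F ≠ 0 ∧
      ∀ W : Submodule ℚ (Fin 12 → ℚ), Module.finrank ℚ W = 2 →
        ∃ v ∈ W, eval v F ≠ 0 := by
  haveI : Fact (Nat.Prime 2) := ⟨Nat.prime_two⟩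
  obtain ⟨N, hN⟩ := anisoP_norm 2 3 (by norm_num)
  refine ⟨map (Int.castRingHom ℚ) (form 2 N), (form_homog 2 hN.1).map _,
    form_ne_zero 2 hN.1, ?_⟩
  intro W hW
  by_contra hcon
  push Not at hcon
  have hfd : FiniteDimensional ℚ W := Module.finite_of_finrank_pos (by omega)
  let b := Module.finBasisOfFinrankEq ℚ W hW
  set u : Fin 12 → ℚ := (b 0 : Fin 12 → ℚ) with hu
  set v : Fin 12 → ℚ := (b 1 : Fin 12 → ℚ) with hv
  have hpair : ∀ s t : ℚ, (∀ i, s * u i + t * v i = 0) → s = 0 ∧ t = 0 := by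
    intro s t h
    have h1 : s • b 0 + t • b 1 = 0 := by
      apply Subtype.ext
      funext i
      exact h i
    have h2 : LinearIndependent ℚ ![b 0, b 1] := by
      have : ![b 0, b 1] = b := by
        funext i
        fin_cases i <;> rfl
      rw [this]
      exact b.linearIndependent
    exact LinearIndependent.pair_iff.1 h2 s t h1
  obtain ⟨i0, j0, hD⟩ : ∃ i j, u i * v j - u j * v i ≠ 0 := by
    by_contra hall
    push Not at hall
    have h1 : ∀ i, u i = 0 := by
      intro i
      have := hpair (v i) (- u i) (fun j => by linear_combination (-1 : ℚ) * hall i j)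
      exact neg_eq_zero.1 this.2
    have := hpair 1 0 (fun i => by rw [h1 i]; ring)
    exact one_ne_zero this.1
  have hcast : ∀ x : Fin 12 → ℚ, eval (fun i => (x i : ℚ_[2]))
      (map (Int.castRingHom ℚ_[2]) (form 2 N)) =
      ((eval x (map (Int.castRingHom ℚ) (form 2 N)) : ℚ) : ℚ_[2]) := by
    intro x
    have h1 := hom_aeval (Rat.castHom ℚ_[2]) x (form 2 N)
    rw [eval_map, eval_map]
    exact h1.symm
  refine no_line_vec (p := 2) hN (fun i => (u i : ℚ_[2])) (fun i => (v i : ℚ_[2])) ?_ ?_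
  · have hdense : DenseRange (Prod.map ((↑) : ℚ → ℚ_[2]) ((↑) : ℚ → ℚ_[2])) :=
      (Padic.denseRange_ratCast 2).prodMap (Padic.denseRange_ratCast 2)
    have hcont : Continuous fun q : ℚ_[2] × ℚ_[2] =>
        eval (fun i => q.1 * (u i : ℚ_[2]) + q.2 * (v i : ℚ_[2]))
          (map (Int.castRingHom ℚ_[2]) (form 2 N)) :=
      (MvPolynomial.continuous_eval _).comp (by fun_prop)
    have heq := hdense.equalizer hcont (continuous_const (y := (0 : ℚ_[2]))) (by
      funext q
      have h1 := hcon _ (q.1 • b 0 + q.2 • b 1).2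
      have h2 := hcast (fun i => q.1 * u i + q.2 * v i)
      have h3 : eval (fun i => q.1 * u i + q.2 * v i) (map (Int.castRingHom ℚ) (form 2 N)) = 0 := h1
      rw [h3] at h2
      simp only [Function.comp_apply, Prod.map_fst, Prod.map_snd]
      rw [Rat.cast_zero] at h2
      rw [← h2]
      have h4 : (fun i => ((q.1 * u i + q.2 * v i : ℚ) : ℚ_[2])) =
          fun i => (q.1 : ℚ_[2]) * (u i : ℚ_[2]) + (q.2 : ℚ_[2]) * (v i : ℚ_[2]) := by
        funext i
        push_cast
        ring
      rw [h4])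
    intro s t
    exact congrFun heq (s, t)
  · intro s t h
    have hD' : ((u i0 * v j0 - u j0 * v i0 : ℚ) : ℚ_[2]) ≠ 0 := by exact_mod_cast hD
    push_cast at hD'
    have h1 := h i0
    have h2 := h j0
    constructor
    · have : s * ((u i0 : ℚ_[2]) * v j0 - u j0 * v i0) = 0 := by
        linear_combination (v j0 : ℚ_[2]) * h1 - (v i0 : ℚ_[2]) * h2
      exact (mul_eq_zero.1 this).resolve_right hD'
    · have : t * ((u i0 : ℚ_[2]) * v j0 - u j0 * v i0) = 0 := by
        linear_combination (u i0 : ℚ_[2]) * h2 - (u j0 : ℚ_[2]) * h1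
      exact (mul_eq_zero.1 this).resolve_right hD'

end Pool.Agent.H321R2.CL
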